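import Pool.Agent.Y890.HE.Full

/-!
# Groups of automorphisms of alternating forms
-/

set_option autoImplicit false
set_option linter.unusedSectionVars false

open Matrix

namespace Pool.Agent.Y890.SM

open Pool.Agent.Y118.HP

variable {n : ℕ}

/-- nondegenerate alternating forms live on spaces of even dimension -/
theorem even_of_alt {k : Type} [Field k] [CharZero k] {J : Matrix (Fin n) (Fin n) k} (hJ : J.transpose = -J)
    (hd : J.det ≠ 0) : Even n := by
  rw [← Nat.not_odd_iff_even]
  intro hodd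
  apply hd
  have h1 := congrArg Matrix.det hJ
  rw [Matrix.det_transpose, Matrix.det_neg, Fintype.card_fin, hodd.neg_one_pow, neg_one_mul] at h1
  exact self_eq_neg.1 h1

theorem diag_of_alt {R : Type} [CommRing R] [IsDomain R] [CharZero R] {J : Matrix (Fin n) (Fin n) R}
    (hJ : J.transpose = -J) (i : Fin n) : J i i = 0 := by
  have h1 := congrFun (congrFun hJ i) i
  rw [Matrix.transpose_apply, Matrix.neg_apply] at h1
  exact self_eq_neg.1 h1

/-- two solutions differ by an automorphism of the form -/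
theorem sp_diff {μ : ℂ} (hμ : μ ≠ 0) {J Q A B : Matrix (Fin n) (Fin n) ℂ} (hJ : J.det ≠ 0)
    (hA : A * Q * A.transpose = μ • J) (hB : B * Q * B.transpose = μ • J) :
    A * B⁻¹ * J * (A * B⁻¹).transpose = J ∧ A * B⁻¹ * B = A := by
  have hdet : B.det ≠ 0 := by
    intro h0
    have h1 := congrArg Matrix.det hB
    rw [Matrix.det_mul, Matrix.det_mul, h0, zero_mul, zero_mul, Matrix.det_smul] at h1
    exact mul_ne_zero (pow_ne_zero _ hμ) hJ h1.symm
  have hu : IsUnit B.det := isUnit_iff_ne_zero.2 hdet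
  have h2 : B⁻¹ * B = 1 := nonsing_inv_mul B hu
  have h3 : B.transpose * (B⁻¹).transpose = 1 := by
    rw [← Matrix.transpose_mul, h2, Matrix.transpose_one]
  refine ⟨?_, by rw [Matrix.mul_assoc, h2, mul_one]⟩
  have h4 : B⁻¹ * (μ • J) * (B⁻¹).transpose = Q := by
    calc B⁻¹ * (μ • J) * (B⁻¹).transpose
        = (B⁻¹ * B) * Q * (B.transpose * (B⁻¹).transpose) := by
          rw [← hB]; simp only [Matrix.mul_assoc]
      _ = _ := by rw [h2, h3, one_mul, mul_one]
  have h5 : μ • (A * B⁻¹ * J * (A * B⁻¹).transpose) = μ • J := by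
    calc μ • (A * B⁻¹ * J * (A * B⁻¹).transpose)
        = A * (B⁻¹ * (μ • J) * (B⁻¹).transpose) * A.transpose := by
          rw [Matrix.transpose_mul, Matrix.mul_smul, Matrix.smul_mul, Matrix.mul_smul, Matrix.smul_mul]
          simp only [Matrix.mul_assoc]
      _ = _ := by rw [h4, hA]
  have h6 := congrArg (fun M => μ⁻¹ • M) h5
  simpa only [smul_smul, inv_mul_cancel₀ hμ, one_smul] using h6

theorem sp_mul {k : Type} [CommRing k] {μ : k} {J Q A g : Matrix (Fin n) (Fin n) k} (hg : g * J * g.transpose = J)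
    (hA : A * Q * A.transpose = μ • J) : g * A * Q * (g * A).transpose = μ • J := by
  calc g * A * Q * (g * A).transpose = g * (A * Q * A.transpose) * g.transpose := by
        rw [Matrix.transpose_mul]; simp only [Matrix.mul_assoc]
    _ = _ := by rw [hA, Matrix.mul_smul, Matrix.smul_mul, hg]

/-- paths in the group of automorphisms of the form -/
theorem sp_path {J : Matrix (Fin n) (Fin n) ℂ} (hJ : J.transpose = -J) (hd : J.det ≠ 0)
    (g : Matrix (Fin n) (Fin n) ℂ) (hg : g * J * g.transpose = J) :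
    ∃ G : Matrix (Fin n) (Fin n) (Polynomial ℂ), G.map (Polynomial.eval 0) = 1 ∧ G.map (Polynomial.eval 1) = g ∧
      ∀ s, G.map (Polynomial.eval s) * J * (G.map (Polynomial.eval s)).transpose = J := by
  classical
  have hn := even_of_alt hJ hd
  obtain ⟨B, hB, hBJ⟩ := Pool.Agent.Y122.HPDar.darboux (jm ℂ n) J jm_transpose (fun i => jm_diag i) (jm_det hn)
    hJ (diag_of_alt hJ) hd
  have hu : IsUnit B.det := isUnit_iff_ne_zero.2 hB
  have h1 : B⁻¹ * B = 1 := nonsing_inv_mul B hu
  have h2 : B * B⁻¹ = 1 := mul_nonsing_inv B hu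
  have h1t : B.transpose * (B⁻¹).transpose = 1 := by rw [← Matrix.transpose_mul, h1, Matrix.transpose_one]
  have h2t : (B⁻¹).transpose * B.transpose = 1 := by rw [← Matrix.transpose_mul, h2, Matrix.transpose_one]
  have hJB : B⁻¹ * J * (B⁻¹).transpose = jm ℂ n := by
    calc B⁻¹ * J * (B⁻¹).transpose = (B⁻¹ * B) * jm ℂ n * (B.transpose * (B⁻¹).transpose) := by
          rw [← hBJ]; simp only [Matrix.mul_assoc]
      _ = _ := by rw [h1, h1t, one_mul, mul_one]
  have hconj : ∀ M : Matrix (Fin n) (Fin n) ℂ, M * jm ℂ n * M.transpose = jm ℂ n →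
      B * M * B⁻¹ * J * (B * M * B⁻¹).transpose = J := by
    intro M hM
    calc B * M * B⁻¹ * J * (B * M * B⁻¹).transpose = B * (M * (B⁻¹ * J * (B⁻¹).transpose) * M.transpose) * B.transpose := by
          rw [Matrix.transpose_mul, Matrix.transpose_mul]; simp only [Matrix.mul_assoc]
      _ = _ := by rw [hJB, hM, hBJ]
  obtain ⟨G, hG0, hG1, hG⟩ := exists_path hn (B⁻¹ * g * B) (by
    show B⁻¹ * g * B * jm ℂ n * (B⁻¹ * g * B).transpose = jm ℂ n
    calc B⁻¹ * g * B * jm ℂ n * (B⁻¹ * g * B).transpose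
        = B⁻¹ * (g * (B * jm ℂ n * B.transpose) * g.transpose) * (B⁻¹).transpose := by
          rw [Matrix.transpose_mul, Matrix.transpose_mul]; simp only [Matrix.mul_assoc]
      _ = _ := by rw [hBJ, hg, hJB])
  have hev : ∀ s : ℂ, (B.map Polynomial.C * G * (B⁻¹).map Polynomial.C).map (Polynomial.eval s) =
      B * G.map (Polynomial.eval s) * B⁻¹ := by
    intro s
    have h3 : ∀ M : Matrix (Fin n) (Fin n) ℂ, (M.map Polynomial.C).map (Polynomial.eval s) = M := by
      intro M
      ext i j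
      simp
    have h4 : ∀ M N : Matrix (Fin n) (Fin n) (Polynomial ℂ), (M * N).map (Polynomial.eval s) =
        M.map (Polynomial.eval s) * N.map (Polynomial.eval s) := fun M N =>
      Matrix.map_mul (f := Polynomial.evalRingHom s)
    rw [h4, h4, h3, h3]
  refine ⟨B.map Polynomial.C * G * (B⁻¹).map Polynomial.C, ?_, ?_, ?_⟩
  · rw [hev, hG0, mul_one, h2]
  · rw [hev, hG1]
    calc B * (B⁻¹ * g * B) * B⁻¹ = (B * B⁻¹) * g * (B * B⁻¹) := by simp only [Matrix.mul_assoc]
      _ = _ := by rw [h2, one_mul, mul_one]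
  · intro s
    rw [hev]
    exact hconj _ (hG s)

end Pool.Agent.Y890.SM
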