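import Pool.Agent.Y890.SM.Alg
import Pool.Agent.Y890.MV.TorExc

/-!
# Families with symplectic monodromy
-/

set_option autoImplicit false
set_option linter.unusedSectionVars false

open Matrix

namespace Pool.Agent.Y890.SM

open Pool.Agent.Y890.MV
open Pool.Agent.Y890.SP (Qbar ioQ ioQ_coe)

/-- the entries of square matrices of sizes `n i` -/
abbrev Ix {ι : Type} (n : ι → ℕ) : Type := Σ i, Fin (n i) × Fin (n i)

/-- the number `2 π i` -/
noncomputable def tpi : ℂ := 2 * Real.pi * Complex.I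

/-- A family over the open set `U` of the space with coordinates indexed by `X`, with symplectic monodromy. `P i x` are
matrices of analytic functions on `U` (periods of bases of algebraic forms over a basis of the homology with rational
coefficients). `Q i` and `J i` are alternating matrices with coefficients in `ℚ̄[x]` and `ℚ` (the polarization on the
forms and on the homology), with `P i * Q i * (P i)ᵀ = (2 π i) ^ w i J i` on `U`. `Γ` is a set of families of rational
matrices which preserve the `J i` (the monodromy), such that the polynomial relations over `ℂ[x]` between the entries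
of the `P i x` on `U` are relations between the entries of the `γ i * P i x`, and every polynomial which vanishes on `Γ`
vanishes on the product of the symplectic groups of the forms `J i`. -/
structure SympFam (X : Type) [Fintype X] {ι : Type} (n : ι → ℕ) where
  U : Set (X → ℂ)
  isOpen : IsOpen U
  conn : IsPreconnected U
  nonempty : U.Nonempty
  P : ∀ i, (X → ℂ) → Matrix (Fin (n i)) (Fin (n i)) ℂ
  an : ∀ i l j, AnalyticOnNhd ℂ (fun x => P i x l j) U
  w : ι → ℕ
  Q : ∀ i, Matrix (Fin (n i)) (Fin (n i)) (MvPolynomial X Qbar)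
  Q_alt : ∀ i, (Q i).transpose = -Q i
  J : ∀ i, Matrix (Fin (n i)) (Fin (n i)) ℚ
  J_alt : ∀ i, (J i).transpose = -J i
  J_det : ∀ i, (J i).det ≠ 0
  riemann : ∀ x ∈ U, ∀ i, P i x * (Q i).map (MvPolynomial.aeval x) * (P i x).transpose =
    tpi ^ w i • (J i).map (algebraMap ℚ ℂ)
  Γ : Set (∀ i, Matrix (Fin (n i)) (Fin (n i)) ℚ)
  pres : ∀ γ ∈ Γ, ∀ i, γ i * J i * (γ i).transpose = J i
  mon : ∀ γ ∈ Γ, ∀ p : MvPolynomial (Ix n) (MvPolynomial X ℂ),
    (∀ x ∈ U, evX x (fun q => P q.1 x q.2.1 q.2.2) p = 0) →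
    ∀ x ∈ U, evX x (fun q => ((γ q.1).map (algebraMap ℚ ℂ) * P q.1 x) q.2.1 q.2.2) p = 0
  dense : ∀ R : MvPolynomial (Ix n) ℂ,
    (∀ γ ∈ Γ, MvPolynomial.eval (fun q => ((γ q.1).map (algebraMap ℚ ℂ)) q.2.1 q.2.2) R = 0) →
    ∀ M : ∀ i, Matrix (Fin (n i)) (Fin (n i)) ℂ,
      (∀ i, M i * (J i).map (algebraMap ℚ ℂ) * (M i).transpose = (J i).map (algebraMap ℚ ℂ)) →
      MvPolynomial.eval (fun q => M q.1 q.2.1 q.2.2) R = 0

variable {X : Type} [Fintype X] [DecidableEq X] {ι : Type} [Fintype ι] [DecidableEq ι] {n : ι → ℕ}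

/-- the functions -/
def SympFam.f (F : SympFam X n) (q : Ix n) (x : X → ℂ) : ℂ := F.P q.1 x q.2.1 q.2.2

/-- a block -/
def bl (Y : Ix n → ℂ) (i : ι) : Matrix (Fin (n i)) (Fin (n i)) ℂ := Matrix.of fun a b => Y ⟨i, (a, b)⟩

/-- the values of the matrices of the polarization -/
noncomputable def SympFam.Qx (F : SympFam X n) (x : X → ℂ) (i : ι) : Matrix (Fin (n i)) (Fin (n i)) ℂ :=
  (F.Q i).map (MvPolynomial.aeval x)

/-- the complex form -/
noncomputable def SympFam.Jx (F : SympFam X n) (i : ι) : Matrix (Fin (n i)) (Fin (n i)) ℂ :=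
  (F.J i).map (algebraMap ℚ ℂ)

/-- the torsor with multiplier `2 π i` -/
def SympFam.Tor (F : SympFam X n) (x : X → ℂ) : Set (Ix n → ℂ) :=
  {Y | ∀ i, bl Y i * F.Qx x i * (bl Y i).transpose = tpi ^ F.w i • F.Jx i}

theorem tpi_ne : tpi ≠ 0 := by
  unfold tpi
  have h1 : (Real.pi : ℂ) ≠ 0 := by exact_mod_cast Real.pi_ne_zero
  exact mul_ne_zero (mul_ne_zero two_ne_zero h1) Complex.I_ne_zero

theorem SympFam.Jx_det (F : SympFam X n) (i : ι) : (F.Jx i).det ≠ 0 := by
  intro h0
  have h1 : (F.Jx i).det = algebraMap ℚ ℂ (F.J i).det := (RingHom.map_det (algebraMap ℚ ℂ) (F.J i)).symm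
  rw [h1, map_eq_zero] at h0
  exact F.J_det i h0

theorem SympFam.Jx_alt (F : SympFam X n) (i : ι) : (F.Jx i).transpose = -F.Jx i := by
  unfold SympFam.Jx
  rw [← Matrix.transpose_map, F.J_alt]
  ext a b
  simp

theorem SympFam.Qx_det (F : SympFam X n) {x : X → ℂ} (hx : x ∈ F.U) (i : ι) : (F.Qx x i).det ≠ 0 := by
  intro h0
  have h1 := congrArg Matrix.det (F.riemann x hx i)
  have h2 : ((F.Q i).map (MvPolynomial.aeval x)).det = 0 := h0
  rw [Matrix.det_mul, Matrix.det_mul, h2, mul_zero, zero_mul, Matrix.det_smul] at h1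
  exact mul_ne_zero (pow_ne_zero _ (pow_ne_zero _ tpi_ne)) (F.Jx_det i) h1.symm

/-- substitution of a linear expression in new variables -/
noncomputable def sub (F : SympFam X n) (x : X → ℂ) (p : MvPolynomial (Ix n) (MvPolynomial X ℂ)) :
    MvPolynomial (Ix n) ℂ :=
  MvPolynomial.eval₂ ((MvPolynomial.C).comp (MvPolynomial.eval x)) (fun q => ∑ k, MvPolynomial.X ⟨q.1, (q.2.1, k)⟩ *
    MvPolynomial.C (F.P q.1 x k q.2.2)) p

theorem sub_eval (F : SympFam X n) (x : X → ℂ) (p : MvPolynomial (Ix n) (MvPolynomial X ℂ))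
    (M : ∀ i, Matrix (Fin (n i)) (Fin (n i)) ℂ) : MvPolynomial.eval (fun q => M q.1 q.2.1 q.2.2) (sub F x p) =
      evX x (fun q => (M q.1 * F.P q.1 x) q.2.1 q.2.2) p := by
  unfold sub evX
  rw [MvPolynomial.hom_eval₂]
  congr 1
  · ext a
    · simp
    · simp
  · funext q
    simp [Matrix.mul_apply]

theorem SympFam.inv (F : SympFam X n) (p : MvPolynomial (Ix n) (MvPolynomial X ℂ))
    (hp : ∀ x ∈ F.U, evM F.f x p = 0) (x : X → ℂ) (hx : x ∈ F.U) (M : ∀ i, Matrix (Fin (n i)) (Fin (n i)) ℂ)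
    (hM : ∀ i, M i * F.Jx i * (M i).transpose = F.Jx i) :
    evX x (fun q => (M q.1 * F.P q.1 x) q.2.1 q.2.2) p = 0 := by
  rw [← sub_eval]
  refine F.dense _ ?_ M hM
  intro γ hγ
  rw [sub_eval F x p fun i => (γ i).map (algebraMap ℚ ℂ)]
  exact F.mon γ hγ p hp x hx

theorem SympFam.exists_sec (F : SympFam X n) (i : ι) :
    ∃ (c : MvPolynomial X ℂ) (W : Matrix (Fin (n i)) (Fin (n i)) (MvPolynomial X ℂ)), c ≠ 0 ∧
      W * (F.Q i).map (MvPolynomial.map (algebraMap Qbar ℂ)) * W.transpose =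
        c ^ 2 • (F.J i).map (algebraMap ℚ (MvPolynomial X ℂ)) := by
  classical
  set R := MvPolynomial X ℂ with hR
  set K := FractionRing R with hK
  set φ : R →+* K := algebraMap R K with hφ
  have hinj : Function.Injective φ := IsFractionRing.injective R K
  set QQ : Matrix (Fin (n i)) (Fin (n i)) R := (F.Q i).map (MvPolynomial.map (algebraMap Qbar ℂ)) with hQQ
  set JJ : Matrix (Fin (n i)) (Fin (n i)) R := (F.J i).map (algebraMap ℚ R) with hJJ
  have hQQa : QQ.transpose = -QQ := by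
    rw [hQQ, ← Matrix.transpose_map, F.Q_alt]
    refine Matrix.ext fun a b => ?_
    rw [Matrix.map_apply, Matrix.neg_apply, Matrix.neg_apply, Matrix.map_apply, map_neg]
  have hJJa : JJ.transpose = -JJ := by
    rw [hJJ, ← Matrix.transpose_map, F.J_alt]
    refine Matrix.ext fun a b => ?_
    rw [Matrix.map_apply, Matrix.neg_apply, Matrix.neg_apply, Matrix.map_apply, map_neg]
  have hma : ∀ A : Matrix (Fin (n i)) (Fin (n i)) R, A.transpose = -A → (A.map φ).transpose = -A.map φ := by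
    intro A hA
    rw [← Matrix.transpose_map, hA]
    ext a b
    simp
  have hmd : ∀ A : Matrix (Fin (n i)) (Fin (n i)) R, A.det ≠ 0 → (A.map φ).det ≠ 0 := by
    intro A hA
    have h1 : (A.map φ).det = φ A.det := (RingHom.map_det φ _).symm
    rw [h1]
    exact fun h => hA (hinj (by rw [h, map_zero]))
  have hQd : QQ.det ≠ 0 := by
    intro h0
    obtain ⟨x, hx⟩ := F.nonempty
    apply F.Qx_det hx i
    have h1 : F.Qx x i = QQ.map (MvPolynomial.eval x) := by
      ext a b
      rw [hQQ, Matrix.map_apply, Matrix.map_apply, MvPolynomial.eval_map]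
      rfl
    have h2 : (QQ.map (MvPolynomial.eval x)).det = MvPolynomial.eval x QQ.det :=
      (RingHom.map_det (MvPolynomial.eval x) _).symm
    rw [h1, h2, h0, map_zero]
  have hJd : JJ.det ≠ 0 := by
    have h1 : JJ.det = algebraMap ℚ R (F.J i).det := (RingHom.map_det (algebraMap ℚ R) _).symm
    rw [h1]
    intro h0
    exact F.J_det i ((map_eq_zero_iff _ (algebraMap ℚ R).injective).1 h0)
  have : CharZero K := charZero_of_injective_algebraMap (algebraMap ℚ K).injective
  obtain ⟨U0, _, hU⟩ := Pool.Agent.Y122.HPDar.darboux (QQ.map φ) (JJ.map φ) (hma _ hQQa)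
    (diag_of_alt (hma _ hQQa)) (hmd _ hQd) (hma _ hJJa) (diag_of_alt (hma _ hJJa)) (hmd _ hJd)
  obtain ⟨b, hb⟩ := IsLocalization.exist_integer_multiples_of_finite (nonZeroDivisors R)
    (fun x : Fin (n i) × Fin (n i) => U0 x.1 x.2)
  choose u hu using hb
  set U : Matrix (Fin (n i)) (Fin (n i)) R := Matrix.of fun a b => u (a, b) with hUd
  have hUm : U.map φ = φ (b : R) • U0 := by
    ext i j
    rw [Matrix.map_apply, hUd, Matrix.of_apply, Matrix.smul_apply, smul_eq_mul]
    have := hu (i, j)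
    rw [Algebra.smul_def] at this
    exact this
  set c : R := (b : R) with hc
  have hc0 : c ≠ 0 := nonZeroDivisors.ne_zero b.2
  refine ⟨c, U, hc0, ?_⟩
  apply Matrix.map_injective hinj
  show (U * QQ * U.transpose).map φ = (c ^ 2 • JJ).map φ
  rw [Matrix.map_mul, Matrix.map_mul, Matrix.transpose_map, hUm]
  have e1 : (c ^ 2 • JJ).map φ = φ c ^ 2 • JJ.map φ := by
    ext a b
    simp [Matrix.smul_apply, smul_eq_mul]
  rw [e1, ← hU]
  rw [Matrix.transpose_smul, Matrix.smul_mul, Matrix.mul_smul, Matrix.smul_mul, smul_smul, ← sq]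

/-- **The relations between the periods hold on the torsor.** -/
theorem SympFam.tor (F : SympFam X n) : TorM F.U F.f F.Tor := by
  classical
  refine ⟨fun x hx i => F.riemann x hx i, ?_, ?_, ?_⟩
  · intro p hp x hx Y hY
    have h1 := fun i => sp_diff (pow_ne_zero (F.w i) tpi_ne) (F.Jx_det i) (hY i) (F.riemann x hx i)
    have h3 := F.inv p hp x hx (fun i => bl Y i * (F.P i x)⁻¹) (fun i => (h1 i).1)
    have h4 : (fun q : Ix n => (bl Y q.1 * (F.P q.1 x)⁻¹ * F.P q.1 x) q.2.1 q.2.2) = Y := by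
      funext q
      rw [(h1 q.1).2]
      rfl
    rw [h4] at h3
    exact h3
  · intro x hx Y hY
    have h1 := fun i => sp_diff (pow_ne_zero (F.w i) tpi_ne) (F.Jx_det i) (hY i) (F.riemann x hx i)
    choose G hG0 hG1 hG using fun i => sp_path (F.Jx_alt i) (F.Jx_det i) _ (h1 i).1
    have hev : ∀ (t : ℂ) (q : Ix n), (∑ k, G q.1 q.2.1 k * Polynomial.C (F.P q.1 x k q.2.2)).eval t =
        ((G q.1).map (Polynomial.eval t) * F.P q.1 x) q.2.1 q.2.2 := by
      intro t q
      rw [Polynomial.eval_finsetSum, Matrix.mul_apply]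
      refine Finset.sum_congr rfl fun k _ => ?_
      rw [Polynomial.eval_mul, Polynomial.eval_C, Matrix.map_apply]
    refine ⟨fun q => ∑ k, G q.1 q.2.1 k * Polynomial.C (F.P q.1 x k q.2.2), ?_, ?_, ?_⟩
    · intro q
      rw [hev, hG0, one_mul]
      rfl
    · intro q
      rw [hev, hG1, (h1 q.1).2]
      rfl
    · intro t i
      have h2 : bl (fun q : Ix n => (∑ k, G q.1 q.2.1 k * Polynomial.C (F.P q.1 x k q.2.2)).eval t) i =
          (G i).map (Polynomial.eval t) * F.P i x := by
        ext a b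
        exact hev t ⟨i, (a, b)⟩
      rw [h2]
      exact sp_mul (hG i t) (F.riemann x hx i)
  · choose c W hc hW using F.exists_sec
    obtain ⟨s, hs⟩ := IsAlgClosed.exists_pow_nat_eq tpi (n := 2) two_pos
    have hWe : ∀ (x : X → ℂ) (i : ι), (W i).map (MvPolynomial.eval x) * F.Qx x i *
        ((W i).map (MvPolynomial.eval x)).transpose = MvPolynomial.eval x (c i) ^ 2 • F.Jx i := by
      intro x i
      have h1 : F.Qx x i = ((F.Q i).map (MvPolynomial.map (algebraMap Qbar ℂ))).map (MvPolynomial.eval x) := by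
        ext a b
        rw [Matrix.map_apply, Matrix.map_apply, MvPolynomial.eval_map]
        rfl
      have h2 : ∀ r : ℚ, MvPolynomial.eval x (algebraMap ℚ (MvPolynomial X ℂ) r) = algebraMap ℚ ℂ r := fun r =>
        RingHom.congr_fun (Subsingleton.elim ((MvPolynomial.eval x).comp (algebraMap ℚ (MvPolynomial X ℂ)))
          (algebraMap ℚ ℂ)) r
      rw [h1, ← Matrix.transpose_map, ← Matrix.map_mul, ← Matrix.map_mul, hW]
      refine Matrix.ext fun a b => ?_
      rw [Matrix.map_apply, Matrix.smul_apply, Matrix.map_apply, smul_eq_mul, map_mul, map_pow, h2, Matrix.smul_apply,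
        SympFam.Jx, Matrix.map_apply, smul_eq_mul]
    have hT : ∀ (x : X → ℂ) (i : ι), MvPolynomial.eval x (c i) ≠ 0 →
        ((s ^ F.w i / MvPolynomial.eval x (c i)) • (W i).map (MvPolynomial.eval x)) * F.Qx x i *
          ((s ^ F.w i / MvPolynomial.eval x (c i)) • (W i).map (MvPolynomial.eval x)).transpose =
          tpi ^ F.w i • F.Jx i := by
      intro x i hx
      rw [Matrix.transpose_smul, Matrix.smul_mul, Matrix.mul_smul, Matrix.smul_mul, hWe, smul_smul, smul_smul, ← hs]
      congr 1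
      field_simp
      ring
    have hci : ∀ (x : X → ℂ), MvPolynomial.eval x (∏ i, c i) ≠ 0 → ∀ i, MvPolynomial.eval x (c i) ≠ 0 := by
      intro x hx i h0
      apply hx
      rw [map_prod]
      exact Finset.prod_eq_zero (Finset.mem_univ i) h0
    refine ⟨∏ i, c i, Finset.prod_ne_zero_iff.2 fun i _ => hc i, ?_⟩
    intro x0 _ hx0 Y0 hY0
    have h1 := fun i => sp_diff (pow_ne_zero (F.w i) tpi_ne) (F.Jx_det i) (hY0 i) (hT x0 i (hci x0 hx0 i))
    set g : ∀ i, Matrix (Fin (n i)) (Fin (n i)) ℂ := fun i =>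
      bl Y0 i * ((s ^ F.w i / MvPolynomial.eval x0 (c i)) • (W i).map (MvPolynomial.eval x0))⁻¹ with hg
    have hev : ∀ x : X → ℂ, MvPolynomial.eval x (∏ i, c i) ≠ 0 → ∀ q : Ix n,
        MvPolynomial.eval x ((∑ k, MvPolynomial.C (s ^ F.w q.1 * g q.1 q.2.1 k) * W q.1 k q.2.2) *
          ∏ j ∈ Finset.univ.erase q.1, c j) / MvPolynomial.eval x (∏ i, c i) =
        (g q.1 * ((s ^ F.w q.1 / MvPolynomial.eval x (c q.1)) • (W q.1).map (MvPolynomial.eval x))) q.2.1 q.2.2 := by
      intro x hx q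
      have h2 : MvPolynomial.eval x (∏ i, c i) = MvPolynomial.eval x (c q.1) *
          MvPolynomial.eval x (∏ j ∈ Finset.univ.erase q.1, c j) := by
        rw [← map_mul, Finset.mul_prod_erase _ _ (Finset.mem_univ q.1)]
      have h3 : MvPolynomial.eval x (∏ j ∈ Finset.univ.erase q.1, c j) ≠ 0 := by
        intro h0
        apply hx
        rw [h2, h0, mul_zero]
      rw [h2, map_mul, mul_div_mul_right _ _ h3, Matrix.mul_apply, map_sum, Finset.sum_div]
      refine Finset.sum_congr rfl fun k _ => ?_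
      rw [map_mul, MvPolynomial.eval_C, Matrix.smul_apply, Matrix.map_apply, smul_eq_mul]
      ring
    refine ⟨fun q => (∑ k, MvPolynomial.C (s ^ F.w q.1 * g q.1 q.2.1 k) * W q.1 k q.2.2) *
      ∏ j ∈ Finset.univ.erase q.1, c j, ?_, ?_⟩
    · intro x _ hx i
      have h2 : bl (fun q : Ix n => MvPolynomial.eval x ((∑ k, MvPolynomial.C (s ^ F.w q.1 * g q.1 q.2.1 k) *
          W q.1 k q.2.2) * ∏ j ∈ Finset.univ.erase q.1, c j) / MvPolynomial.eval x (∏ i, c i)) i =
          g i * ((s ^ F.w i / MvPolynomial.eval x (c i)) • (W i).map (MvPolynomial.eval x)) := by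
        ext a b
        exact hev x hx ⟨i, (a, b)⟩
      rw [h2]
      exact sp_mul (h1 i).1 (hT x i (hci x hx i))
    · intro q
      rw [hev x0 hx0 q, (h1 q.1).2]
      rfl

end Pool.Agent.Y890.SM
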