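import Pool.Agent.Y890.SM.Fam
import Pool.Agent.H340R2.LW

/-!
# From the torsor with multiplier `2 π i` to the full torsor
-/

set_option autoImplicit false
set_option linter.unusedSectionVars false

open Matrix

namespace Pool.Agent.Y890.SM

open Pool.Agent.Y890.MV
open Pool.Agent.Y890.SP (Qbar ioQ ioQ_coe)

/-- the square roots of `2 π i` are not algebraic -/
theorem root_trans (s : ℂ) (hs : s ^ 2 = tpi) (p : Polynomial Qbar)
    (h : Polynomial.eval₂ (algebraMap Qbar ℂ) s p = 0) : p = 0 := by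
  by_contra hp
  have h1 : IsAlgebraic Qbar s := ⟨p, hp, h⟩
  have : Algebra.IsAlgebraic ℚ Qbar := algebraicClosure.isAlgebraic ℚ ℂ
  have h2 : IsAlgebraic ℚ s := IsAlgebraic.restrictScalars ℚ h1
  have h3 : IsAlgebraic ℚ ((s ^ 2) ^ 2) := (h2.pow 2).pow 2
  have h4 : (s ^ 2) ^ 2 = algebraMap ℚ ℂ (-4) * (Real.pi : ℂ) ^ 2 := by
    rw [hs]
    unfold tpi
    rw [mul_pow, mul_pow, Complex.I_sq]
    norm_num
  have h5 : (Real.pi : ℂ) ^ 2 = algebraMap ℚ ℂ (-4)⁻¹ * (s ^ 2) ^ 2 := by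
    rw [h4, ← mul_assoc, ← map_mul]
    norm_num
  have h6 : IsAlgebraic ℚ ((Real.pi : ℂ) ^ 2) := by
    rw [h5]
    exact (isAlgebraic_algebraMap _).mul h3
  exact Pool.Agent.H340R2.LW.transcendental_pi_complex (h6.of_pow two_pos)

variable {X : Type} [Fintype X] [DecidableEq X] {ι : Type} [Fintype ι] [DecidableEq ι] {n : ι → ℕ}

/-- a symplectic basis over the field of algebraic numbers -/
theorem SympFam.exists_U (F : SympFam X n) (e : X → Qbar) (he : (fun j => algebraMap Qbar ℂ (e j)) ∈ F.U) (i : ι) :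
    ∃ U : Matrix (Fin (n i)) (Fin (n i)) Qbar,
      U.map (algebraMap Qbar ℂ) * F.Qx (fun j => algebraMap Qbar ℂ (e j)) i * (U.map (algebraMap Qbar ℂ)).transpose =
        F.Jx i := by
  classical
  set φ : Qbar →+* ℂ := algebraMap Qbar ℂ with hφ
  set QQ : Matrix (Fin (n i)) (Fin (n i)) Qbar := (F.Q i).map (MvPolynomial.eval e) with hQQ
  set JJ : Matrix (Fin (n i)) (Fin (n i)) Qbar := (F.J i).map (algebraMap ℚ Qbar) with hJJ
  have hQm : QQ.map φ = F.Qx (fun j => φ (e j)) i := by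
    refine Matrix.ext fun a b => ?_
    rw [hQQ, Matrix.map_apply, Matrix.map_apply, SympFam.Qx, Matrix.map_apply]
    have h1 := MvPolynomial.eval₂_comp_left φ (RingHom.id Qbar) e (F.Q i a b)
    rw [MvPolynomial.aeval_def]
    rw [MvPolynomial.eval, MvPolynomial.coe_eval₂Hom, h1]
    rfl
  have hJm : JJ.map φ = F.Jx i := by
    refine Matrix.ext fun a b => ?_
    rw [hJJ, Matrix.map_apply, Matrix.map_apply, SympFam.Jx, Matrix.map_apply]
    simp
  have hQQa : QQ.transpose = -QQ := by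
    rw [hQQ, ← Matrix.transpose_map, F.Q_alt]
    refine Matrix.ext fun a b => ?_
    rw [Matrix.map_apply, Matrix.neg_apply, Matrix.neg_apply, Matrix.map_apply, map_neg]
  have hJJa : JJ.transpose = -JJ := by
    rw [hJJ, ← Matrix.transpose_map, F.J_alt]
    refine Matrix.ext fun a b => ?_
    rw [Matrix.map_apply, Matrix.neg_apply, Matrix.neg_apply, Matrix.map_apply, map_neg]
  have hdet : ∀ A : Matrix (Fin (n i)) (Fin (n i)) Qbar, (A.map φ).det ≠ 0 → A.det ≠ 0 := by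
    intro A hA h0
    have h1 : (A.map φ).det = φ A.det := (RingHom.map_det φ _).symm
    rw [h0, map_zero] at h1
    exact hA h1
  obtain ⟨U, _, hU⟩ := Pool.Agent.Y122.HPDar.darboux QQ JJ hQQa (diag_of_alt hQQa)
    (hdet _ (by rw [hQm]; exact F.Qx_det he i)) hJJa (diag_of_alt hJJa) (hdet _ (by rw [hJm]; exact F.Jx_det i))
  refine ⟨U, ?_⟩
  rw [← hQm, ← Matrix.transpose_map, ← Matrix.map_mul, ← Matrix.map_mul, hU, hJm]

theorem SympFam.mem_tor (F : SympFam X n) (x : X → ℂ) (M : ∀ i, Matrix (Fin (n i)) (Fin (n i)) ℂ)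
    (h : ∀ i, M i * F.Qx x i * (M i).transpose = tpi ^ F.w i • F.Jx i) :
    (fun q : Ix n => M q.1 q.2.1 q.2.2) ∈ F.Tor x := fun i => h i

theorem SympFam.scal (F : SympFam X n) {x : X → ℂ} {U : ∀ i, Matrix (Fin (n i)) (Fin (n i)) Qbar}
    (hU : ∀ i, (U i).map (algebraMap Qbar ℂ) * F.Qx x i * ((U i).map (algebraMap Qbar ℂ)).transpose = F.Jx i)
    (z : ℂ) (i : ι) : (z ^ F.w i • (U i).map (algebraMap Qbar ℂ)) * F.Qx x i *
      (z ^ F.w i • (U i).map (algebraMap Qbar ℂ)).transpose = ((z ^ 2) ^ F.w i) • F.Jx i := by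
  rw [Matrix.transpose_smul, Matrix.smul_mul, Matrix.mul_smul, Matrix.smul_mul, smul_smul, hU i]
  congr 1
  ring

theorem SympFam.full_aux (F : SympFam X n) {x : X → ℂ} {δ h : ℕ} (c : (Ix n → Fin (δ + 1)) → Fin h → Qbar)
    (H : ∀ Y ∈ F.Tor x,
      ∑ l, (∑ a : Fin h, tpi ^ (a : ℕ) * algebraMap Qbar ℂ (c l a)) * ∏ y, Y y ^ (l y : ℕ) = 0)
    (U : ∀ i, Matrix (Fin (n i)) (Fin (n i)) Qbar)
    (hU : ∀ i, (U i).map (algebraMap Qbar ℂ) * F.Qx x i * ((U i).map (algebraMap Qbar ℂ)).transpose = F.Jx i)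
    (γ : ∀ i, Matrix (Fin (n i)) (Fin (n i)) ℚ) (hγ : γ ∈ F.Γ) (z : ℂ) :
    ∑ l : Ix n → Fin (δ + 1), (∑ a : Fin h, (z ^ 2) ^ (a : ℕ) * algebraMap Qbar ℂ (c l a)) *
      ∏ y, (((γ y.1).map (algebraMap ℚ ℂ) * (z ^ F.w y.1 • (U y.1).map (algebraMap Qbar ℂ))) y.2.1 y.2.2) ^
        (l y : ℕ) = 0 := by
  classical
  set φ : Qbar →+* ℂ := algebraMap Qbar ℂ with hφ
  set W : ∀ i, Matrix (Fin (n i)) (Fin (n i)) Qbar := fun i => (γ i).map (algebraMap ℚ Qbar) * U i with hW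
  set p : Polynomial Qbar := ∑ l : Ix n → Fin (δ + 1),
    (∑ a : Fin h, (Polynomial.X ^ 2) ^ (a : ℕ) * Polynomial.C (c l a)) *
      ∏ y, (Polynomial.X ^ F.w y.1 * Polynomial.C (W y.1 y.2.1 y.2.2)) ^ (l y : ℕ) with hp
  have e1 : ∀ r : ℚ, φ (algebraMap ℚ Qbar r) = algebraMap ℚ ℂ r := fun r =>
    (IsScalarTower.algebraMap_apply ℚ Qbar ℂ r).symm
  have hWm : ∀ (w : ℂ) (y : Ix n), w ^ F.w y.1 * φ (W y.1 y.2.1 y.2.2) =
      ((γ y.1).map (algebraMap ℚ ℂ) * (w ^ F.w y.1 • (U y.1).map φ)) y.2.1 y.2.2 := by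
    intro w y
    rw [hW]
    simp only [Matrix.mul_apply, Matrix.map_apply, Matrix.smul_apply, smul_eq_mul, map_sum, map_mul, e1,
      Finset.mul_sum]
    refine Finset.sum_congr rfl fun k _ => ?_
    ring
  have hpe : ∀ w : ℂ, Polynomial.eval₂ φ w p = ∑ l : Ix n → Fin (δ + 1),
      (∑ a : Fin h, (w ^ 2) ^ (a : ℕ) * φ (c l a)) *
      ∏ y, (((γ y.1).map (algebraMap ℚ ℂ) * (w ^ F.w y.1 • (U y.1).map φ)) y.2.1 y.2.2) ^ (l y : ℕ) := by
    intro w
    have h3 : Polynomial.eval₂ φ w p = Polynomial.eval₂RingHom φ w p := rfl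
    rw [h3, hp]
    simp only [map_sum, map_mul, map_prod, map_pow, Polynomial.coe_eval₂RingHom, Polynomial.eval₂_X,
      Polynomial.eval₂_C, hWm]
  have hp0 : p = 0 := by
    obtain ⟨s, hs⟩ := IsAlgClosed.exists_pow_nat_eq tpi (n := 2) two_pos
    refine root_trans s hs p ?_
    rw [hpe]
    have h5 : (fun q : Ix n => ((γ q.1).map (algebraMap ℚ ℂ) * (s ^ F.w q.1 • (U q.1).map φ)) q.2.1 q.2.2) ∈
        F.Tor x := by
      refine F.mem_tor x (fun i => (γ i).map (algebraMap ℚ ℂ) * (s ^ F.w i • (U i).map φ)) fun i => ?_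
      have h6 := F.scal hU s i
      rw [hs] at h6
      refine sp_mul ?_ h6
      have h7 := congrArg (fun M : Matrix (Fin (n i)) (Fin (n i)) ℚ => M.map (algebraMap ℚ ℂ)) (F.pres γ hγ i)
      simp only [Matrix.map_mul] at h7
      rw [Matrix.transpose_map] at h7
      exact h7
    have h8 := H _ h5
    rw [hs]
    exact h8
  rw [← hpe, hp0, Polynomial.eval₂_zero]

/-- **From the torsor with multiplier `2 π i` to the full torsor.** -/
theorem SympFam.full (F : SympFam X n) {K : Type} [Field K] [NumberField K] (io : K →+* ℂ)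
    (e : X → K) (he : (fun j => io (e j)) ∈ F.U) {δ h : ℕ} (c : (Ix n → Fin (δ + 1)) → Fin h → K)
    (H : ∀ Y ∈ F.Tor (fun j => io (e j)),
      ∑ l, (∑ a : Fin h, tpi ^ (a : ℕ) * io (c l a)) * ∏ y, Y y ^ (l y : ℕ) = 0)
    {μ : ℂ} (hμ : μ ≠ 0) (Y : Ix n → ℂ)
    (hY : ∀ i, bl Y i * F.Qx (fun j => io (e j)) i * (bl Y i).transpose = μ ^ F.w i • F.Jx i) :
    ∑ l, (∑ a : Fin h, μ ^ (a : ℕ) * io (c l a)) * ∏ y, Y y ^ (l y : ℕ) = 0 := by
  classical
  obtain ⟨U, hU⟩ : ∃ U : ∀ i, Matrix (Fin (n i)) (Fin (n i)) Qbar, ∀ i, (U i).map (algebraMap Qbar ℂ) *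
      F.Qx (fun j => io (e j)) i * ((U i).map (algebraMap Qbar ℂ)).transpose = F.Jx i := by
    choose U hU using F.exists_U (fun j => ioQ io (e j)) he
    exact ⟨U, hU⟩
  obtain ⟨z, rfl⟩ := IsAlgClosed.exists_pow_nat_eq μ (n := 2) two_pos
  have h1 := fun i => sp_diff (pow_ne_zero (F.w i) hμ) (F.Jx_det i) (hY i) (F.scal hU z i)
  set g : ∀ i, Matrix (Fin (n i)) (Fin (n i)) ℂ := fun i =>
    bl Y i * (z ^ F.w i • (U i).map (algebraMap Qbar ℂ))⁻¹ with hg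
  -- the polynomial in `g`
  set P : MvPolynomial (Ix n) ℂ :=
    ∑ l : Ix n → Fin (δ + 1), (∑ a : Fin h, MvPolynomial.C ((z ^ 2) ^ (a : ℕ) * io (c l a))) *
      ∏ y, (∑ k, MvPolynomial.X (⟨y.1, (y.2.1, k)⟩ : Ix n) *
        MvPolynomial.C (z ^ F.w y.1 * algebraMap Qbar ℂ (U y.1 k y.2.2))) ^ (l y : ℕ) with hP
  have hPe : ∀ g : ∀ i, Matrix (Fin (n i)) (Fin (n i)) ℂ,
      MvPolynomial.eval (fun q => (g q.1) q.2.1 q.2.2) P = ∑ l : Ix n → Fin (δ + 1),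
        (∑ a : Fin h, (z ^ 2) ^ (a : ℕ) * io (c l a)) *
        ∏ y, ((g y.1 * (z ^ F.w y.1 • (U y.1).map (algebraMap Qbar ℂ))) y.2.1 y.2.2) ^ (l y : ℕ) := by
    intro g
    rw [hP]
    simp only [map_sum, map_mul, map_prod, map_pow, MvPolynomial.eval_C, MvPolynomial.eval_X, Matrix.mul_apply,
      Matrix.smul_apply, Matrix.map_apply, smul_eq_mul]
  have key := F.dense P (fun γ hγ => (hPe (fun i => (γ i).map (algebraMap ℚ ℂ))).trans
    (F.full_aux (fun l a => ioQ io (c l a)) H U hU γ hγ z)) g (fun i => (h1 i).1)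
  rw [hPe] at key
  refine Eq.trans (Finset.sum_congr rfl fun l _ => ?_) key
  congr 1
  refine Finset.prod_congr rfl fun y _ => ?_
  congr 1
  exact (congrFun (congrFun (h1 y.1).2 y.2.1) y.2.2).symm

end Pool.Agent.Y890.SM
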