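import Pool.Agent.Y890.SM.Main
import Pool.Agent.Y890.HE.Main

/-!
# Hyperelliptic curves with arbitrary branch points
-/

set_option autoImplicit false
set_option linter.unusedSectionVars false

open Filter Matrix NumberField

namespace Pool.Agent.Y890.SM

open Pool.Agent.Y118.HP (jm SpS jm_det jm_transpose jm_map SpS_map qm)
open Pool.Agent.Y890.MV
open Pool.Agent.Y890.HE
open Pool.Agent.Y890.SP (Qbar)

variable {ι : Type}

/-- `2 i` as an algebraic number -/
noncomputable def twoI : Qbar := ⟨2 * Complex.I, by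
  rw [mem_algebraicClosure_iff]
  refine IsAlgebraic.of_pow (n := 2) two_pos ?_
  rw [mul_pow, Complex.I_sq]
  have h1 : (2 : ℂ) ^ 2 * -1 = algebraMap ℚ ℂ (-4) := by norm_num
  rw [h1]
  exact isAlgebraic_algebraMap _⟩

theorem twoI_coe : algebraMap Qbar ℂ twoI = 2 * Complex.I := rfl

/-- the coefficients of the polynomials with given roots -/
noncomputable def cfQ (n : ι → ℕ) (i : ι) (m : ℕ) : MvPolynomial (Σ i, Fin (n i + 1)) Qbar :=
  (∏ r : Fin (n i + 1), (Polynomial.X - Polynomial.C (MvPolynomial.X (R := Qbar) (⟨i, r⟩ : Σ i, Fin (n i + 1))))).coeff m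

theorem cfQ_eval (n : ι → ℕ) (i : ι) (m : ℕ) (e : (Σ i, Fin (n i + 1)) → ℂ) :
    MvPolynomial.aeval e (cfQ n i m) =
      (∏ r : Fin (n i + 1), (Polynomial.X - Polynomial.C (e ⟨i, r⟩))).coeff m := by
  have h1 : (∏ r : Fin (n i + 1), (Polynomial.X - Polynomial.C (e ⟨i, r⟩))) =
      (∏ r : Fin (n i + 1), (Polynomial.X - Polynomial.C (MvPolynomial.X (R := Qbar)
        (⟨i, r⟩ : Σ i, Fin (n i + 1))))).map (MvPolynomial.aeval e : _ →ₐ[Qbar] ℂ).toRingHom := by
    rw [Polynomial.map_prod]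
    refine Finset.prod_congr rfl fun r _ => ?_
    rw [Polynomial.map_sub, Polynomial.map_X, Polynomial.map_C]
    simp
  rw [h1, Polynomial.coeff_map]
  rfl

/-- the polarization -/
noncomputable def QQ (n : ι → ℕ) (i : ι) : Matrix (Fin (n i)) (Fin (n i)) (MvPolynomial (Σ i, Fin (n i + 1)) Qbar) :=
  Matrix.of fun a b => MvPolynomial.C (twoI * ((((a : ℕ) : Qbar) - ((b : ℕ) : Qbar)) / 2)) *
    cfQ n i ((a : ℕ) + (b : ℕ) + 2)

theorem QQ_eval (n : ι → ℕ) (i : ι) (e : (Σ i, Fin (n i + 1)) → ℂ) :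
    (QQ n i).map (MvPolynomial.aeval e) =
      (2 * Complex.I) • qm (n i) (∏ r : Fin (n i + 1), (Polynomial.X - Polynomial.C (e ⟨i, r⟩))) := by
  refine Matrix.ext fun a b => ?_
  rw [Matrix.map_apply, QQ, Matrix.of_apply, map_mul, cfQ_eval, MvPolynomial.aeval_C, Matrix.smul_apply, qm,
    Matrix.of_apply, map_mul, map_div₀, map_sub, map_natCast, map_natCast, map_ofNat, twoI_coe, smul_eq_mul]
  ring

theorem QQ_alt (n : ι → ℕ) (i : ι) : (QQ n i).transpose = -QQ n i := by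
  refine Matrix.ext fun a b => ?_
  have h1 : (MvPolynomial.C (twoI * ((((b : ℕ) : Qbar) - ((a : ℕ) : Qbar)) / 2)) :
      MvPolynomial (Σ i, Fin (n i + 1)) Qbar) =
      -MvPolynomial.C (twoI * ((((a : ℕ) : Qbar) - ((b : ℕ) : Qbar)) / 2)) := by
    rw [← map_neg]
    congr 1
    ring
  rw [Matrix.transpose_apply, Matrix.neg_apply, QQ, Matrix.of_apply, Matrix.of_apply,
    show (b : ℕ) + (a : ℕ) + 2 = (a : ℕ) + (b : ℕ) + 2 by omega, h1]
  generalize (MvPolynomial.C (twoI * ((((a : ℕ) : Qbar) - ((b : ℕ) : Qbar)) / 2)) :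
      MvPolynomial (Σ i, Fin (n i + 1)) Qbar) = A
  generalize cfQ n i ((a : ℕ) + (b : ℕ) + 2) = B
  ring

variable [Fintype ι] [DecidableEq ι]

theorem hyp_mon (n : ι → ℕ) (hn : ∀ i, Even (n i)) (γ : ∀ i, Matrix (Fin (n i)) (Fin (n i)) ℚ)
    (hγ : ∀ i, γ i ∈ SpS ℚ (n i)) (e : (Σ i, Fin (n i + 1)) → ℂ) (he : e ∈ Conf n) :
    unM (fun i => (γ i).map (algebraMap ℚ ℂ) * pm n e i) ∈ TSig (fun i => TorH (n i)) e := by
  intro i
  show mt (pj (unM _) i) * _ * (mt (pj (unM _) i)).transpose = _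
  rw [pj_unM]
  exact sp_tor (SpS_map (algebraMap ℚ ℂ) (hγ i)) (legendreC (hn i) (he i))

/-- all products of hyperelliptic curves with arbitrary branch points -/
noncomputable def hyp (n : ι → ℕ) (hn : ∀ i, Even (n i)) : SympFam (Σ i, Fin (n i + 1)) n where
  U := Conf n
  isOpen := USig_open fun i => Ord_open (n i)
  conn := (USig_convex fun i => Ord_convex (n i)).isPreconnected
  nonempty := USig_nonempty fun i => Ord_nonempty (n i)
  P := fun i e => pm n e i
  an := pm_an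
  w := fun _ => 1
  Q := QQ n
  Q_alt := QQ_alt n
  J := fun i => jm ℚ (n i)
  J_alt := fun i => jm_transpose
  J_det := fun i => jm_det (hn i)
  riemann := by
    intro e he i
    have h1 := (pm_mem hn he).2 i
    have h2 : (jm ℚ (n i)).map (algebraMap ℚ ℂ) = jm ℂ (n i) := jm_map (algebraMap ℚ ℂ)
    have h3 : pm n e i * qm (n i) (∏ r : Fin (n i + 1), (Polynomial.X - Polynomial.C (e ⟨i, r⟩))) *
      (pm n e i).transpose = (Real.pi : ℂ) • jm ℂ (n i) := h1
    rw [QQ_eval, h2, Matrix.mul_smul, Matrix.smul_mul, h3, smul_smul, pow_one]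
    congr 1
    unfold tpi
    ring
  Γ := {γ | ∀ i, γ i ∈ SpS ℚ (n i)}
  pres := fun γ hγ i => hγ i
  mon := by
    intro γ hγ p hp e he
    have hT : TorM (USig (fun i => Ord (n i))) (fSig (fun i => fH (n i))) (TSig (fun i => TorH (n i))) :=
      TorM.sig fun i => torH (hn i)
    exact hT.inv p hp e he _ (hyp_mon n hn γ hγ e he)
  dense := by
    intro R hR M hM
    refine dense_prod hn R (fun g hg => hR g hg) M fun i => ?_
    have h1 := hM i
    have h2 : (jm ℚ (n i)).map (algebraMap ℚ ℂ) = jm ℂ (n i) := jm_map (algebraMap ℚ ℂ)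
    rw [h2] at h1
    exact h1

end Pool.Agent.Y890.SM
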