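import Pool.Agent.Y890.SM.Full

/-!
# Relations over number fields between the periods of families with symplectic monodromy
-/

set_option autoImplicit false
set_option linter.unusedSectionVars false

open Filter Matrix NumberField

namespace Pool.Agent.Y890.SM

open Pool.Agent.Y890.MV
open Pool.Agent.Y890.SP (Qbar ioQ ioQ_coe)
open Pool.Agent.Y124 (Cov)

section Def

variable {X : Type} [Fintype X] {ι : Type} {n : ι → ℕ}

/-- the torsor of the periods at `x`: the `(Y, μ)`, `μ ≠ 0`, with `Y i * Q i(x) * (Y i)ᵀ = μ ^ w i J i` for all `i` -/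
def SympFam.torsor (F : SympFam X n) (x : X → ℂ) : Set ((∀ i, Matrix (Fin (n i)) (Fin (n i)) ℂ) × ℂ) :=
  {p | p.2 ≠ 0 ∧ ∀ i, p.1 i * (F.Q i).map (MvPolynomial.aeval x) * (p.1 i).transpose =
    p.2 ^ F.w i • (F.J i).map (algebraMap ℚ ℂ)}

variable [Fintype ι] [DecidableEq ι]

/-- the polynomial in the entries of the matrices `Y i` with coefficients `∑ a, ξ a * c l a`, of degree at most `k` in
each entry -/
noncomputable def poly {k : ℕ} (c : (Ix n → Fin (k + 1)) → Fin k → ℂ) (ξ : Fin k → ℂ)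
    (Y : ∀ i, Matrix (Fin (n i)) (Fin (n i)) ℂ) : ℂ :=
  ∑ l : Ix n → Fin (k + 1), (∑ a, ξ a * c l a) * ∏ y : Ix n, (Y y.1 y.2.1 y.2.2) ^ (l y : ℕ)

/-- the relations over `K` of degree at most `k`, with coefficients of size at most `T ^ k`, between the periods at `x`
and the constants `ξ`, respectively the powers of `2 π i`, hold on the torsor -/
def SympFam.Generic (F : SympFam X n) (k : ℕ) (K : Type) [Field K] [NumberField K] (io : K →+* ℂ) (ξ : Fin k → ℂ)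
    (T : ℝ) (x : X → ℂ) : Prop :=
  ∀ c : (Ix n → Fin (k + 1)) → Fin k → 𝓞 K,
    (∀ l a (φ : K →+* ℂ), ‖φ (c l a : K)‖ ≤ T ^ k) →
    (poly (fun l a => io (c l a : K)) ξ (fun i => F.P i x) = 0 →
      ∀ Y, (Y, tpi) ∈ F.torsor x → poly (fun l a => io (c l a : K)) ξ Y = 0) ∧
    (poly (fun l a => io (c l a : K)) (fun a => tpi ^ (a : ℕ)) (fun i => F.P i x) = 0 →
      ∀ p ∈ F.torsor x, poly (fun l a => io (c l a : K)) (fun a => p.2 ^ (a : ℕ)) p.1 = 0)

/-- the points of `U` over `K`, of height at most `T`, of norm at most `k` and distance at least `1 / k` from the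
complement, which are not generic -/
def SympFam.Exceptional (F : SympFam X n) (k : ℕ) (K : Type) [Field K] [NumberField K] (io : K →+* ℂ)
    (ξ : Fin k → ℂ) (T : ℝ) : Set (X → K) :=
  {e | (∀ j, Y120.HtLe K T (e j)) ∧ (fun j => io (e j)) ∈ InnerM F.U k ∧
    ¬ F.Generic k K io ξ T (fun j => io (e j))}

end Def

variable {X : Type} [Fintype X] [DecidableEq X] {ι : Type} [Fintype ι] [DecidableEq ι] {n : ι → ℕ}

theorem SympFam.mem (F : SympFam X n) {x : X → ℂ} (hx : x ∈ F.U) : ((fun i => F.P i x), tpi) ∈ F.torsor x :=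
  ⟨tpi_ne, F.riemann x hx⟩

theorem SympFam.exceptional_sub (F : SympFam X n) (k : ℕ) (hk : 0 < k) (K : Type) [Field K] [NumberField K]
    (io : K →+* ℂ) (ξ : Fin k → ℂ) (T : ℝ) : F.Exceptional k K io ξ T ⊆
      ExcT k F.f F.Tor (InnerM F.U k) K io ξ (k : ℝ) T ∪
      ExcT k F.f F.Tor (InnerM F.U k) K io (fun a : Fin k => tpi ^ (a : ℕ)) (k : ℝ) T := by
  classical
  rintro e ⟨h1, h2, h3⟩
  by_contra hcon
  rw [Set.mem_union, not_or] at hcon
  obtain ⟨h4, h5⟩ := hcon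
  apply h3
  intro c hc
  have hc' : ∀ l i (φ : K →+* ℂ), ‖φ (c l i : K)‖ ≤ T ^ (k : ℝ) := by
    intro l i φ
    rw [Real.rpow_natCast]
    exact hc l i φ
  have key : ∀ w : Fin k → ℂ, e ∉ ExcT k F.f F.Tor (InnerM F.U k) K io w (k : ℝ) T →
      poly (fun l a => io (c l a : K)) w (fun i => F.P i fun j => io (e j)) = 0 →
      ∀ Y ∈ F.Tor (fun j => io (e j)),
        ∑ l, (∑ a, w a * io (c l a : K)) * ∏ y, Y y ^ (l y : ℕ) = 0 := by
    intro w hw hw0
    by_contra hne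
    exact hw ⟨h1, h2, c, hc', hw0, hne⟩
  refine ⟨fun h6 Y hY => ?_, fun h6 => ?_⟩
  · exact key ξ h4 h6 (fun q => Y q.1 q.2.1 q.2.2) (fun i => hY.2 i)
  · rintro ⟨Y, μ⟩ hp
    exact F.full io e (innerM_sub _ hk h2) (fun l a => (c l a : K))
      (key (fun a => tpi ^ (a : ℕ)) h5 h6) hp.1 (fun q => Y q.1 q.2.1 q.2.2) (fun i => hp.2 i)

theorem SympFam.main [Nonempty X] (F : SympFam X n) :
    ∃ (ω : ℝ → ℕ) (T₀ : ℝ), Tendsto ω atTop atTop ∧ Monotone ω ∧ ∀ T, T₀ ≤ T → 0 < ω T ∧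
      ∀ (K : Type) [Field K] [NumberField K], Module.finrank ℚ K ≤ ω T → ∀ (io : K →+* ℂ) (ξ : Fin (ω T) → ℂ),
        Cov ⌊T ^ ((ω T : ℝ)⁻¹)⌋₊ ⌊T ^ ((ω T : ℝ)⁻¹)⌋₊
          ((fun (e : X → K) j => io (e j)) '' F.Exceptional (ω T) K io ξ T) ∧
        (F.Exceptional (ω T) K io ξ T).Finite ∧
        ((F.Exceptional (ω T) K io ξ T).ncard : ℝ) ≤
          T ^ ((ω T : ℝ)⁻¹) * ({x : K | Y120.HtLe K T x}.ncard : ℝ) ^ (Fintype.card X - 1) := by
  classical
  refine omega_gen (fun k => Fin k → ℂ) (fun k K _ _ io ξ T => F.Exceptional k K io ξ T)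
    (fun k K _ _ io ξ T s hs => hs.1) ?_
  intro k ε hε
  rcases Nat.eq_zero_or_pos k with hk | hk
  · refine ⟨0, 0, 2, le_rfl, le_rfl, ?_⟩
    intro K _ _ hK
    have h1 : 0 < Module.finrank ℚ K := Module.finrank_pos
    omega
  have hf : ∀ q, AnalyticOnNhd ℂ (F.f q) F.U := fun q => F.an q.1 q.2.1 q.2.2
  obtain ⟨D, C, T₀, hC, hT₀, H⟩ := excT_cov F.conn F.isOpen F.nonempty hf F.tor (InnerM F.U k) (innerM_compact _ _)
    (innerM_sub _ hk) k (Fin k) k (k : ℝ) ε hε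
  refine ⟨D, 2 * C, T₀, by positivity, hT₀, fun K _ _ hK io ξ T hT0 => ?_⟩
  have h1 := (H K hK io ξ T hT0).union (H K hK io (fun a : Fin k => tpi ^ (a : ℕ)) T hT0)
  rw [← Set.image_union] at h1
  refine h1.mono le_rfl ?_ (Set.image_mono (F.exceptional_sub k hk K io ξ T))
  have h2 : (0 : ℝ) ≤ C * T ^ ε := by
    have : (0 : ℝ) < T := by linarith
    positivity
  apply Nat.le_floor
  push_cast
  have h3 := Nat.floor_le h2
  linarith

end Pool.Agent.Y890.SM
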